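import Pool.Agent.Helper94.Tot.Final
import Pool.Agent.Helper88.LG.Goals

/-!
# Mertens' second theorem with an error term, upper bound (packet ME)
-/

set_option autoImplicit false

open Finset Filter Topology

open scoped Classical

namespace Pool.Agent.Helper69.LG

open Pool.Agent.Helper88.LG

/-- `∑_{p ≤ n} log p / p` -/
noncomputable def A (n : ℕ) : ℝ := ∑ p ∈ (Icc 1 n).filter Nat.Prime, Real.log p / p

theorem term_nonneg (p : ℕ) : 0 ≤ Real.log p / p :=
  div_nonneg (Real.log_natCast_nonneg p) (Nat.cast_nonneg p)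

theorem A_mono {m n : ℕ} (h : m ≤ n) : A m ≤ A n := by
  unfold A
  apply Finset.sum_le_sum_of_subset_of_nonneg
  · apply Finset.filter_subset_filter
    exact Finset.Icc_subset_Icc_right h
  · intro p _ _
    exact term_nonneg p

theorem A_pow (n : ℕ) :
    A (2 ^ n) = Real.log 2 * ∑ p ∈ Pool.Agent.Helper94.Tot.PN n,
      Pool.Agent.Helper94.Tot.lg p / p := by
  unfold A Pool.Agent.Helper94.Tot.PN Pool.Agent.Helper94.Tot.lg
  rw [Finset.mul_sum]
  have h2 : Real.log 2 ≠ 0 := (Real.log_pos (by norm_num)).ne'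
  refine Finset.sum_congr ?_ ?_
  · ext p
    simp
  · intro p _
    unfold Real.logb
    field_simp

theorem A_bound : ∃ C : ℝ, 0 < C ∧ ∀ n : ℕ, 1 ≤ n → |A n - Real.log n| ≤ C := by
  obtain ⟨C, hC, hM⟩ := Pool.Agent.Helper94.Tot.allM1
  have h2 : 0 < Real.log 2 := Real.log_pos (by norm_num)
  refine ⟨(C + 1) * Real.log 2, by positivity, fun n hn => ?_⟩
  have hk1 : 2 ^ (Nat.log 2 n) ≤ n := Nat.pow_log_le_self 2 (by omega)
  have hk2 : n < 2 ^ (Nat.log 2 n + 1) := Nat.lt_pow_succ_log_self (by norm_num) n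
  set k := Nat.log 2 n with hk
  have e1 := A_mono hk1
  have e2 := A_mono hk2.le
  have hb1 := hM k
  have hb2 := hM (k + 1)
  rw [abs_le] at hb1 hb2
  rw [A_pow] at e1 e2
  have hnpos : (0 : ℝ) < n := by exact_mod_cast (by omega : 0 < n)
  have l1 : (k : ℝ) * Real.log 2 ≤ Real.log n := by
    rw [← Real.log_pow]
    apply Real.log_le_log (by positivity)
    exact_mod_cast hk1
  have l2 : Real.log n ≤ ((k : ℝ) + 1) * Real.log 2 := by
    have : Real.log n ≤ Real.log ((2 : ℝ) ^ (k + 1)) := by
      apply Real.log_le_log hnpos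
      exact_mod_cast hk2.le
    rw [Real.log_pow] at this
    push_cast at this
    exact this
  have m1 : Real.log 2 * ((k : ℝ) - C) ≤ A n := by
    refine le_trans ?_ e1
    apply mul_le_mul_of_nonneg_left _ h2.le
    linarith
  have m2 : A n ≤ Real.log 2 * ((k : ℝ) + 1 + C) := by
    refine le_trans e2 ?_
    apply mul_le_mul_of_nonneg_left _ h2.le
    push_cast at hb2
    linarith
  rw [abs_le]
  constructor
  · nlinarith
  · nlinarith

/-- partial summation, discrete form -/
theorem partial_sum {K : ℝ} {y : ℕ} (hy : 2 ≤ y)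
    (hB : ∀ n : ℕ, y ≤ n → A n - A y ≤ Real.log n - Real.log y + K) (H : ℕ) (hH : y ≤ H) :
    ∑ p ∈ (Ioc y H).filter Nat.Prime, 1 / (p : ℝ)
      ≤ (A H - A y) / Real.log H + (Real.log (Real.log H) - Real.log (Real.log y))
        + (K - Real.log y) * (1 / Real.log y - 1 / Real.log H) := by
  induction H, hH using Nat.le_induction with
  | base => simp
  | succ H hH ih =>
    have hlogH : 0 < Real.log H := Real.log_pos (by exact_mod_cast (by omega : 1 < H))
    have hcast : ((H + 1 : ℕ) : ℝ) = (H : ℝ) + 1 := by push_cast; ring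
    have hHpos : (0 : ℝ) < H := by exact_mod_cast (by omega : 0 < H)
    have hlog : Real.log H ≤ Real.log ((H + 1 : ℕ) : ℝ) := by
      apply Real.log_le_log hHpos
      rw [hcast]; linarith
    have hlogH1 : 0 < Real.log ((H + 1 : ℕ) : ℝ) := lt_of_lt_of_le hlogH hlog
    have hsum : ∑ p ∈ (Ioc y (H + 1)).filter Nat.Prime, 1 / (p : ℝ)
        = ∑ p ∈ (Ioc y H).filter Nat.Prime, 1 / (p : ℝ)
          + (A (H + 1) - A H) / Real.log ((H + 1 : ℕ) : ℝ) := by
      have i1 : Ioc y (H + 1) = insert (H + 1) (Ioc y H) := by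
        ext x; simp only [mem_Ioc, mem_insert]; omega
      have i2 : Icc 1 (H + 1) = insert (H + 1) (Icc 1 H) := by
        ext x; simp only [mem_Icc, mem_insert]; omega
      unfold A
      rw [i1, i2, Finset.filter_insert, Finset.filter_insert]
      by_cases hp : (H + 1).Prime
      · rw [if_pos hp, if_pos hp, Finset.sum_insert (by simp), Finset.sum_insert (by simp)]
        have : (((H + 1 : ℕ) : ℝ)) ≠ 0 := by rw [hcast]; linarith
        field_simp
        ring
      · rw [if_neg hp, if_neg hp]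
        simp
    rw [hsum]
    have hBH := hB H hH
    -- the key inequality
    have hx : 0 < Real.log ((H + 1 : ℕ) : ℝ) / Real.log H := div_pos hlogH1 hlogH
    have hkey := Real.one_sub_inv_le_log_of_pos hx
    rw [Real.log_div hlogH1.ne' hlogH.ne', inv_div] at hkey
    have hdiff : 0 ≤ 1 / Real.log H - 1 / Real.log ((H + 1 : ℕ) : ℝ) := by
      have := one_div_le_one_div_of_le hlogH hlog
      linarith
    have h3 : (A H - A y - K + Real.log y) * (1 / Real.log H - 1 / Real.log ((H + 1 : ℕ) : ℝ))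
        ≤ Real.log H * (1 / Real.log H - 1 / Real.log ((H + 1 : ℕ) : ℝ)) := by
      apply mul_le_mul_of_nonneg_right _ hdiff
      linarith
    have h4 : Real.log H * (1 / Real.log H - 1 / Real.log ((H + 1 : ℕ) : ℝ))
        = 1 - Real.log H / Real.log ((H + 1 : ℕ) : ℝ) := by
      field_simp
    rw [h4] at h3
    have h5 : (A H - A y) / Real.log H + (A (H + 1) - A H) / Real.log ((H + 1 : ℕ) : ℝ)
        = (A (H + 1) - A y) / Real.log ((H + 1 : ℕ) : ℝ)
          + (A H - A y) * (1 / Real.log H - 1 / Real.log ((H + 1 : ℕ) : ℝ)) := by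
      field_simp
      ring
    have h6 : (A H - A y - K + Real.log y) * (1 / Real.log H - 1 / Real.log ((H + 1 : ℕ) : ℝ))
        = (A H - A y) * (1 / Real.log H - 1 / Real.log ((H + 1 : ℕ) : ℝ))
          - (K - Real.log y) * (1 / Real.log H - 1 / Real.log ((H + 1 : ℕ) : ℝ)) := by ring
    have h7 : (K - Real.log y) * (1 / Real.log y - 1 / Real.log ((H + 1 : ℕ) : ℝ))
        = (K - Real.log y) * (1 / Real.log y - 1 / Real.log H)
          + (K - Real.log y) * (1 / Real.log H - 1 / Real.log ((H + 1 : ℕ) : ℝ)) := by ring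
    rw [h7]
    linarith

theorem me : StmtME := by
  obtain ⟨C, hC, hA⟩ := A_bound
  refine ⟨2 * (2 * C + 1), by positivity, fun Y H hY hYH => ?_⟩
  have hY0 : 0 ≤ Y := by linarith
  set y := ⌊Y⌋₊ with hy
  have hy2 : 2 ≤ y := Nat.le_floor (by exact_mod_cast hY)
  have hyY : (y : ℝ) ≤ Y := Nat.floor_le hY0
  have hYy : Y < y + 1 := Nat.lt_floor_add_one Y
  have hyH : y ≤ H := by exact_mod_cast hyY.trans hYH
  have hypos : (0 : ℝ) < y := by exact_mod_cast (by omega : 0 < y)
  have hy2' : (2 : ℝ) ≤ y := by exact_mod_cast hy2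
  have hset : (Icc 1 H).filter (fun p : ℕ => p.Prime ∧ Y < (p : ℝ))
      = (Ioc y H).filter Nat.Prime := by
    ext p
    simp only [mem_filter, mem_Icc, mem_Ioc]
    constructor
    · rintro ⟨⟨h1, h2⟩, h3, h4⟩
      refine ⟨⟨?_, h2⟩, h3⟩
      exact (Nat.floor_lt hY0).2 h4
    · rintro ⟨⟨h1, h2⟩, h3⟩
      exact ⟨⟨by omega, h2⟩, h3, (Nat.floor_lt hY0).1 h1⟩
  have hlogy : 0 < Real.log y := Real.log_pos (by linarith)
  have hlogY : Real.log y ≤ Real.log Y := Real.log_le_log hypos hyY
  have hlogY0 : 0 < Real.log Y := lt_of_lt_of_le hlogy hlogY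
  have hHpos : (0 : ℝ) < H := lt_of_lt_of_le (by linarith) hYH
  have hlogH : Real.log Y ≤ Real.log H := Real.log_le_log (by linarith) hYH
  have hlogH0 : 0 < Real.log H := lt_of_lt_of_le hlogY0 hlogH
  have hB : ∀ n : ℕ, y ≤ n → A n - A y ≤ Real.log n - Real.log y + 2 * C := by
    intro n hn
    have h1 := hA n (by omega)
    have h2 := hA y (by omega)
    rw [abs_le] at h1 h2
    linarith
  have hmain := partial_sum hy2 hB H hyH
  have hBH := hB H hyH
  rw [hset]
  have h1 : (A H - A y) / Real.log H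
      ≤ (Real.log H - Real.log y + 2 * C) / Real.log H := by
    exact div_le_div_of_nonneg_right hBH hlogH0.le
  have h2 : (Real.log H - Real.log y + 2 * C) / Real.log H
      + (2 * C - Real.log y) * (1 / Real.log y - 1 / Real.log H) = 2 * C / Real.log y := by
    field_simp
    ring
  have h3 : ∑ p ∈ (Ioc y H).filter Nat.Prime, 1 / (p : ℝ)
      ≤ (Real.log (Real.log H) - Real.log (Real.log y)) + 2 * C / Real.log y := by
    linarith
  -- replace `y` by `Y`
  have h4 : Real.log (Real.log Y) - Real.log (Real.log y) ≤ 1 / Real.log y := by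
    rw [← Real.log_div hlogY0.ne' hlogy.ne']
    have h5 := Real.log_le_sub_one_of_pos (div_pos hlogY0 hlogy)
    have h6 : Real.log Y ≤ Real.log y + 1 := by
      have h7 : Real.log (Y / y) ≤ Y / y - 1 := Real.log_le_sub_one_of_pos (by positivity)
      rw [Real.log_div (by linarith) hypos.ne'] at h7
      have h8 : Y / y ≤ 2 := by
        rw [div_le_iff₀ hypos]
        linarith
      linarith
    have h9 : Real.log Y / Real.log y ≤ (Real.log y + 1) / Real.log y :=
      div_le_div_of_nonneg_right h6 hlogy.le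
    rw [add_div, div_self hlogy.ne'] at h9
    linarith
  have h5 : Real.log Y ≤ 2 * Real.log y := by
    have : Real.log Y ≤ Real.log ((y : ℝ) ^ 2) := by
      apply Real.log_le_log (by linarith)
      nlinarith
    rw [Real.log_pow] at this
    push_cast at this
    exact this
  have h6 : 1 / Real.log y ≤ 2 / Real.log Y := by
    rw [div_le_div_iff₀ hlogy hlogY0]
    linarith
  rw [Real.log_div hlogH0.ne' hlogY0.ne']
  have h7 : 2 * C / Real.log y + 1 / Real.log y ≤ 2 * (2 * C + 1) / Real.log Y := by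
    have : 2 * C / Real.log y + 1 / Real.log y = (2 * C + 1) * (1 / Real.log y) := by ring
    rw [this]
    have h8 : (2 * C + 1) * (1 / Real.log y) ≤ (2 * C + 1) * (2 / Real.log Y) :=
      mul_le_mul_of_nonneg_left h6 (by positivity)
    refine h8.trans (le_of_eq ?_)
    ring
  linarith

end Pool.Agent.Helper69.LG
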